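import Pool.Agent.MGP.Stmts

/-!
# Squad MGP (MP_5f6ee5_nt), row FIN
-/

set_option autoImplicit false

namespace Pool.Agent.MGP.H66

open Pool.Agent.MGP

/-- **FIN** -/
theorem fin : FinStmt := by
  intro G _ f N F R hf hstep hR hN hRF n hn hnF
  have hR1 : 1 ≤ R := hR.pos
  have A : ∀ s : ℕ, 2 * (R + 2 * s) ≤ F → f (R + 2 * s) = f R := by
    intro s
    induction s with
    | zero => intro _; rfl
    | succ s ih =>
      intro h
      have h1 : 2 * (R + 2 * s) ≤ F := by omega
      have h2 : Odd (R + 2 * s) := by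
        obtain ⟨c, hc⟩ := hR
        exact ⟨c + s, by omega⟩
      have h3 : 2 * N ≤ (R + 2 * s) * F :=
        hN.trans (Nat.mul_le_mul_right F (Nat.le_add_right R (2 * s)))
      have h4 := hstep (R + 2 * s) h2 h3 h1
      have h5 : R + 2 * (s + 1) = R + 2 * s + 2 := by ring
      rw [h5, ← h4]
      exact ih h1
  have A' : ∀ r : ℕ, Odd r → R ≤ r → 2 * r ≤ F → f r = f R := by
    intro r hr hRr hrF
    obtain ⟨a, ha⟩ := hR
    obtain ⟨b, hb⟩ := hr
    have h1 : r = R + 2 * (b - a) := by omega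
    have h2 := A (b - a) (by omega)
    rw [← h1] at h2
    exact h2
  have B : ∀ n : ℕ, Odd n → 2 * (n * R) ≤ F → f n = 1 := by
    intro n hn h
    have h1 : R ≤ n * R := Nat.le_mul_of_pos_left R hn.pos
    have h2 := A' (n * R) (hn.mul hR) h1 h
    rw [hf n R hn hR] at h2
    exact mul_eq_right.1 h2
  have hfR : f R = 1 := B R hR (by rw [← pow_two]; exact hRF)
  rcases Nat.lt_or_ge n R with h | h
  · refine B n hn (le_trans ?_ hRF)
    rw [pow_two]
    exact Nat.mul_le_mul_left 2 (Nat.mul_le_mul_right R h.le)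
  · rw [A' n hn h hnF, hfR]

end Pool.Agent.MGP.H66
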